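import Pool.Agent.K4H72.Til.Spec

open Set

namespace Pool.Agent.K4H72.Til

private lemma quad6 {s t A : ℝ} (hs1 : s ≤ A) (hs2 : -s ≤ A) (ht1 : t ≤ A) (ht2 : -t ≤ A)
    (hd1 : s - t ≤ A) (hd2 : t - s ≤ A) : s ^ 2 - s * t + t ^ 2 ≤ A ^ 2 := by
  have hA : 0 ≤ A := by linarith
  have h1 : s ^ 2 ≤ A ^ 2 := by nlinarith
  have h2 : t ^ 2 ≤ A ^ 2 := by nlinarith
  have h3 : (s - t) ^ 2 ≤ A ^ 2 := by nlinarith
  by_cases hst : 0 ≤ s * t
  · have e1 : s * t = |s| * |t| := by rw [← abs_mul, abs_of_nonneg hst]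
    rcases le_total (|s|) (|t|) with hle | hle
    · have : s ^ 2 ≤ s * t := by
        rw [e1, ← sq_abs s, sq]
        exact mul_le_mul_of_nonneg_left hle (abs_nonneg s)
      linarith
    · have : t ^ 2 ≤ s * t := by
        rw [e1, ← sq_abs t, sq]
        exact mul_le_mul_of_nonneg_right hle (abs_nonneg t)
      linarith
  · push Not at hst
    nlinarith

theorem radius (h : ℝ) (g : ℤ × ℤ → ℂ) (hg : Def1 h g) (v : ℤ × ℤ) (z : ℂ)
    (hz : ∀ e ∈ six, ‖z - g v‖ ≤ ‖z - g (v + e)‖) : ‖z - g v‖ ≤ 7 / 10 * h := by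
  obtain ⟨hh, hg⟩ := hg
  have h3 : Real.sqrt 3 ^ 2 = 3 := Real.sq_sqrt (by norm_num)
  set r : ℝ := ‖z - g v‖ with hr
  have hr0 : 0 ≤ r := norm_nonneg _
  set x : ℝ := (z - g v).re with hx
  set y : ℝ := (z - g v).im with hy
  have hr2 : r ^ 2 = x ^ 2 + y ^ 2 := by
    rw [hr, ← Complex.normSq_eq_norm_sq, Complex.normSq_apply]
    ring
  -- one half plane
  have key : ∀ e ∈ six, ‖E e‖ = 1 → 2 * (x * (E e).re + y * (E e).im) ≤ 441 / 400 * h + r / 10 := by
    intro e he hE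
    have h1 := hz e he
    have h2 := hg (v + e) v
    rw [add_sub_cancel_left, hE, mul_one] at h2
    set d : ℂ := g (v + e) - g v with hd
    have e1 : z - g (v + e) = (z - g v) - d := by rw [hd]; ring
    rw [e1] at h1
    have hn : ‖d‖ ≤ 21 / 20 * h := by
      have e2 : ‖(h : ℂ) * E e‖ = h := by
        rw [norm_mul, hE, mul_one, Complex.norm_real, Real.norm_of_nonneg hh.le]
      have := norm_add_le (d - (h : ℂ) * E e) ((h : ℂ) * E e)
      rw [sub_add_cancel, e2] at this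
      linarith
    have hsq : r ^ 2 ≤ ‖(z - g v) - d‖ ^ 2 := pow_le_pow_left₀ hr0 h1 2
    have hdd : ‖(z - g v) - d‖ ^ 2 = r ^ 2 - 2 * (x * d.re + y * d.im) + ‖d‖ ^ 2 := by
      rw [hr2, ← Complex.normSq_eq_norm_sq, ← Complex.normSq_eq_norm_sq, Complex.normSq_apply,
        Complex.normSq_apply, Complex.sub_re, Complex.sub_im, ← hx, ← hy]
      ring
    have hd2 : ‖d‖ ^ 2 ≤ (21 / 20 * h) ^ 2 := pow_le_pow_left₀ (norm_nonneg _) hn 2
    -- the error
    have herr : -(1 / 20 * h * r) ≤ x * (d.re - h * (E e).re) + y * (d.im - h * (E e).im) := by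
      set q : ℂ := d - (h : ℂ) * E e with hq
      have e3 : q.re = d.re - h * (E e).re := by rw [hq]; simp
      have e4 : q.im = d.im - h * (E e).im := by rw [hq]; simp
      rw [← e3, ← e4]
      have hq2 : ‖q‖ ^ 2 = q.re ^ 2 + q.im ^ 2 := by
        rw [← Complex.normSq_eq_norm_sq, Complex.normSq_apply]
        ring
      have hcs : (x * q.re + y * q.im) ^ 2 ≤ (1 / 20 * h * r) ^ 2 := by
        have h5 : (x * q.re + y * q.im) ^ 2 ≤ (x ^ 2 + y ^ 2) * (q.re ^ 2 + q.im ^ 2) := by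
          nlinarith [sq_nonneg (x * q.im - y * q.re)]
        rw [← hr2, ← hq2] at h5
        have h6 : ‖q‖ ^ 2 ≤ (1 / 20 * h) ^ 2 := pow_le_pow_left₀ (norm_nonneg _) h2 2
        have h7 : r ^ 2 * ‖q‖ ^ 2 ≤ r ^ 2 * (1 / 20 * h) ^ 2 :=
          mul_le_mul_of_nonneg_left h6 (sq_nonneg r)
        calc _ ≤ r ^ 2 * ‖q‖ ^ 2 := h5
          _ ≤ r ^ 2 * (1 / 20 * h) ^ 2 := h7
          _ = _ := by ring
      exact (abs_le.1 (abs_le_of_sq_le_sq hcs (by positivity))).1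
    have h8 : 2 * (x * d.re + y * d.im) ≤ (21 / 20 * h) ^ 2 := by linarith
    have h9 : h * (2 * (x * (E e).re + y * (E e).im)) ≤ h * (441 / 400 * h + r / 10) := by
      nlinarith
    exact le_of_mul_le_mul_left h9 hh
  have r10 : (E (1, 0)).re = 1 ∧ (E (1, 0)).im = 0 := by constructor <;> simp [E, ζ]
  have r20 : (E (-1, 0)).re = -1 ∧ (E (-1, 0)).im = 0 := by constructor <;> simp [E, ζ]
  have r01 : (E (0, 1)).re = 1 / 2 ∧ (E (0, 1)).im = Real.sqrt 3 / 2 := by constructor <;> simp [E, ζ]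
  have r02 : (E (0, -1)).re = -(1 / 2) ∧ (E (0, -1)).im = -(Real.sqrt 3 / 2) := by
    constructor <;> simp [E, ζ]
  have r11 : (E (1, -1)).re = 1 / 2 ∧ (E (1, -1)).im = -(Real.sqrt 3 / 2) := by
    constructor
    · simp [E, ζ]; norm_num
    · simp [E, ζ]
  have r12 : (E (-1, 1)).re = -(1 / 2) ∧ (E (-1, 1)).im = Real.sqrt 3 / 2 := by
    constructor
    · simp [E, ζ]; norm_num
    · simp [E, ζ]
  have hnorm : ∀ e : ℤ × ℤ, (E e).re ^ 2 + (E e).im ^ 2 = 1 → ‖E e‖ = 1 := by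
    intro e he
    have : ‖E e‖ ^ 2 = 1 := by
      rw [← Complex.normSq_eq_norm_sq, Complex.normSq_apply]
      linarith
    nlinarith [norm_nonneg (E e)]
  have k1 := key (1, 0) (by decide) (hnorm _ (by rw [r10.1, r10.2]; norm_num))
  have k2 := key (-1, 0) (by decide) (hnorm _ (by rw [r20.1, r20.2]; norm_num))
  have k3 := key (0, 1) (by decide) (hnorm _ (by rw [r01.1, r01.2]; linarith))
  have k4 := key (0, -1) (by decide) (hnorm _ (by rw [r02.1, r02.2]; linarith))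
  have k5 := key (1, -1) (by decide) (hnorm _ (by rw [r11.1, r11.2]; linarith))
  have k6 := key (-1, 1) (by decide) (hnorm _ (by rw [r12.1, r12.2]; linarith))
  rw [r10.1, r10.2] at k1
  rw [r20.1, r20.2] at k2
  rw [r01.1, r01.2] at k3
  rw [r02.1, r02.2] at k4
  rw [r11.1, r11.2] at k5
  rw [r12.1, r12.2] at k6
  have hq := quad6 (s := 2 * x) (t := x + Real.sqrt 3 * y) (A := 441 / 400 * h + r / 10)
    (by linarith) (by linarith) (by linarith) (by linarith) (by linarith) (by linarith)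
  have e5 : (2 * x) ^ 2 - 2 * x * (x + Real.sqrt 3 * y) + (x + Real.sqrt 3 * y) ^ 2 = 3 * r ^ 2 := by
    rw [hr2]
    linear_combination y ^ 2 * h3
  rw [e5] at hq
  by_contra hcon
  push Not at hcon
  nlinarith

end Pool.Agent.K4H72.Til
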