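import Pool.Agent.K4H72.Til.Spec

open Set

namespace Pool.Agent.K4H72.Til

private lemma E_fin8 (r : ℝ) : {v : ℤ × ℤ | ‖E v‖ ≤ r}.Finite := by
  refine ((Set.finite_Icc (-⌈2 * r⌉) ⌈2 * r⌉).prod (Set.finite_Icc (-⌈2 * r⌉) ⌈2 * r⌉)).subset ?_
  rintro ⟨a, b⟩ hv
  simp only [Set.mem_ofPred_eq] at hv
  have h1 : |(E (a, b)).re| ≤ r := (Complex.abs_re_le_norm _).trans hv
  have h2 : |(E (a, b)).im| ≤ r := (Complex.abs_im_le_norm _).trans hv
  have e1 : (E (a, b)).re = (a : ℝ) + b / 2 := by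
    simp [E, ζ]
    ring
  have e2 : (E (a, b)).im = (b : ℝ) * (Real.sqrt 3 / 2) := by
    simp [E, ζ]
  rw [e1] at h1
  rw [e2, abs_mul] at h2
  have h3 : (1 : ℝ) ≤ Real.sqrt 3 := by
    rw [Real.one_le_sqrt]
    norm_num
  have h4 : |Real.sqrt 3 / 2| = Real.sqrt 3 / 2 := abs_of_nonneg (by positivity)
  rw [h4] at h2
  have h5 : |(b : ℝ)| ≤ 2 * r := by nlinarith [abs_nonneg (b : ℝ)]
  have h6 : |(a : ℝ)| ≤ 2 * r := by
    rw [abs_le] at h1 h5 ⊢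
    constructor <;> linarith [h1.1, h1.2, h5.1, h5.2]
  have key : ∀ c : ℤ, |(c : ℝ)| ≤ 2 * r → c ∈ Set.Icc (-⌈2 * r⌉) ⌈2 * r⌉ := by
    intro c hc
    rw [abs_le] at hc
    constructor
    · have : ((-c : ℤ) : ℝ) ≤ (⌈2 * r⌉ : ℝ) := by
        push_cast
        linarith [Int.le_ceil (2 * r), hc.1]
      have := Int.cast_le.1 this
      omega
    · exact Int.cast_le.1 (hc.2.trans (Int.le_ceil _))
  exact ⟨key a h6, key b h5⟩

/-- T8: the nearest `g v` exists -/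
theorem cover (h : ℝ) (g : ℤ × ℤ → ℂ) (hg : Def1 h g) (z : ℂ) : ∃ v, z ∈ cell g v := by
  obtain ⟨hh, hg⟩ := hg
  have hlow : ∀ v w, 19 / 20 * h * ‖E (v - w)‖ ≤ ‖g v - g w‖ := by
    intro v w
    have h1 := hg v w
    have h2 : ‖(h : ℂ) * E (v - w)‖ = h * ‖E (v - w)‖ := by
      rw [norm_mul, Complex.norm_real, Real.norm_of_nonneg hh.le]
    have h3 : ‖(h : ℂ) * E (v - w)‖ ≤ ‖g v - g w‖ + ‖g v - g w - (h : ℂ) * E (v - w)‖ := by
      have := norm_sub_le (g v - g w) (g v - g w - (h : ℂ) * E (v - w))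
      rwa [sub_sub_cancel] at this
    rw [h2] at h3
    linarith
  set S : Set (ℤ × ℤ) := {w | ‖z - g w‖ ≤ ‖z - g 0‖} with hS
  have hfin : S.Finite := by
    refine (E_fin8 (2 * ‖z - g 0‖ / (19 / 20 * h))).subset ?_
    intro w hw
    have hw' : ‖z - g w‖ ≤ ‖z - g 0‖ := hw
    have h1 := hlow w 0
    rw [sub_zero] at h1
    have h2 : ‖g w - g 0‖ ≤ ‖z - g w‖ + ‖z - g 0‖ := by
      have := norm_sub_le (z - g 0) (z - g w)
      rw [sub_sub_sub_cancel_left] at this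
      linarith
    simp only [Set.mem_ofPred_eq]
    rw [le_div_iff₀ (by positivity)]
    linarith
  have hne : S.Nonempty := ⟨0, show ‖z - g 0‖ ≤ ‖z - g 0‖ from le_refl _⟩
  obtain ⟨v, hv, hmin⟩ := Set.exists_min_image S (fun w => ‖z - g w‖) hfin hne
  refine ⟨v, fun w => ?_⟩
  by_cases hw : w ∈ S
  · exact hmin w hw
  · have h1 : ‖z - g 0‖ < ‖z - g w‖ := not_le.1 hw
    exact (show ‖z - g v‖ ≤ ‖z - g 0‖ from hv).trans h1.le

theorem self_mem (g : ℤ × ℤ → ℂ) (v : ℤ × ℤ) : g v ∈ cell g v := by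
  intro w
  rw [sub_self, norm_zero]
  exact norm_nonneg _

end Pool.Agent.K4H72.Til
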